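import Pool.Agent.P.MP_7cff07_gt.SlFinal

namespace Pool.Agent.Results.MP_7cff07_gt.SliceAsymptotic

open Pool.Agent.P.MP_7cff07_gt

theorem result : ∀ ε : ℝ, 0 < ε → ∃ r₀ : ℕ, ∀ r n l : ℕ, r₀ ≤ r → r / 2 + 1 ≤ l →
    l + (r / 2 + 1) ≤ n → 2 * (r / 2) + 3 ≤ n →
    |({q | Nontrivial (reducedHomology (VR {x : Lex (Fin n → Bool) |
        (Finset.univ.filter fun i => ofLex x i = true).card = l} r) q)}.ncard : ℝ) /
      (Nat.choose (2 * (r / 2) + 1) (r / 2) : ℝ) - 1| ≤ ε :=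
  fun _ hε => slice_asymptotic hε

end Pool.Agent.Results.MP_7cff07_gt.SliceAsymptotic
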