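import Pool.Agent.P.MP_7cff07_gt.Top

namespace Pool.Agent.Results.MP_7cff07_gt.TopDegree

open Pool.Agent.P.MP_7cff07_gt

theorem result (n r q : ℕ) (X : Set (Lex (Fin n → Bool))) (hq : 2 ^ r ≤ q) :
    Subsingleton (reducedHomology (VR X r) q) :=
  not_nontrivial_iff_subsingleton.1 (vanish_top n r q X hq)

end Pool.Agent.Results.MP_7cff07_gt.TopDegree
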